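import Mathlib

/-!
# MP_4d7bfe_al: automorphisms of quasi-transitive graphs of periodic groups

If a group `G` acts with finitely many vertex orbits on a connected locally finite graph, and every
element of `G` has some finite orbit (for instance if `G` is periodic), then every automorphism of
the graph has only finite orbits.
-/

set_option autoImplicit false

namespace Pool.Agent.Results.MP_4d7bfe_al.FiniteOrbits

section Core

lemma perm_apply_inv_self {α : Type*} (f : Equiv.Perm α) (x : α) : f (f⁻¹ x) = x :=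
  Equiv.apply_symm_apply f x

lemma perm_inv_apply_self {α : Type*} (f : Equiv.Perm α) (x : α) : f⁻¹ (f x) = x :=
  Equiv.symm_apply_apply f x

variable {V : Type*}

/-- Automorphisms of a graph, as a subgroup of `Equiv.Perm V`. -/
def grAut (Γ : SimpleGraph V) : Subgroup (Equiv.Perm V) where
  carrier := {f | ∀ x y : V, Γ.Adj x y ↔ Γ.Adj (f x) (f y)}
  mul_mem' := by
    intro f g hf hg x y
    rw [Equiv.Perm.mul_apply, Equiv.Perm.mul_apply, hg x y, hf (g x) (g y)]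
  one_mem' := by
    intro x y
    simp
  inv_mem' := by
    intro f hf x y
    have h := hf (f⁻¹ x) (f⁻¹ y)
    simp only [perm_apply_inv_self] at h
    exact h.symm

lemma mem_grAut {Γ : SimpleGraph V} {f : Equiv.Perm V} :
    f ∈ grAut Γ ↔ ∀ x y : V, Γ.Adj x y ↔ Γ.Adj (f x) (f y) := Iff.rfl

/-- Local finiteness: the images of a point under the automorphisms carrying `o` to `r` form a
finite set. -/
lemma orbit_finite {Γ : SimpleGraph V} (hlf : ∀ v, (Γ.neighborSet v).Finite)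
    (hc : Γ.Preconnected) (o r y : V) :
    {z : V | ∃ f ∈ grAut Γ, f o = r ∧ f y = z}.Finite := by
  obtain ⟨p⟩ := hc o y
  induction p generalizing r with
  | nil =>
    refine (Set.finite_singleton r).subset ?_
    rintro z ⟨f, -, h1, hz⟩
    rw [Set.mem_singleton_iff, ← hz, h1]
  | @cons a b c h p ih =>
    refine ((hlf r).biUnion (fun r' _ => ih r')).subset ?_
    rintro z ⟨f, hf, h1, hz⟩
    simp only [Set.mem_iUnion]
    refine ⟨f b, ?_, f, hf, rfl, hz⟩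
    rw [SimpleGraph.mem_neighborSet, ← h1]
    exact (hf a b).1 h

/-- `K(a,b)`: automorphisms fixing `τ^j o` for all `a ≤ j ≤ b`. -/
def seg (Γ : SimpleGraph V) (o : V) (τ : Equiv.Perm V) (a b : ℤ) : Subgroup (Equiv.Perm V) where
  carrier := {f | f ∈ grAut Γ ∧ ∀ j : ℤ, a ≤ j → j ≤ b → f ((τ ^ j) o) = (τ ^ j) o}
  mul_mem' := by
    rintro f g ⟨hf, hf'⟩ ⟨hg, hg'⟩
    refine ⟨mul_mem hf hg, fun j h1 h2 => ?_⟩
    rw [Equiv.Perm.mul_apply, hg' j h1 h2, hf' j h1 h2]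
  one_mem' := ⟨one_mem _, fun j _ _ => rfl⟩
  inv_mem' := by
    rintro f ⟨hf, hf'⟩
    refine ⟨inv_mem hf, fun j h1 h2 => ?_⟩
    rw [Equiv.Perm.inv_eq_iff_eq, hf' j h1 h2]

variable {Γ : SimpleGraph V} {o : V} {τ : Equiv.Perm V}

lemma seg_mono {a b c d : ℤ} (h1 : a ≤ c) (h2 : d ≤ b) :
    seg Γ o τ a b ≤ seg Γ o τ c d := by
  rintro f ⟨hf, hf'⟩
  exact ⟨hf, fun j h3 h4 => hf' j (h1.trans h3) (h4.trans h2)⟩

lemma seg_conj (hτ : τ ∈ grAut Γ) {a b : ℤ} (s : ℤ)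
    {f : Equiv.Perm V} (hf : f ∈ seg Γ o τ a b) :
    τ ^ s * f * (τ ^ s)⁻¹ ∈ seg Γ o τ (a + s) (b + s) := by
  obtain ⟨hf, hf'⟩ := hf
  have hs : τ ^ s ∈ grAut Γ := zpow_mem hτ s
  refine ⟨mul_mem (mul_mem hs hf) (inv_mem hs), fun j h1 h2 => ?_⟩
  have h := hf' (j - s) (by linarith) (by linarith)
  have e1 : ((τ ^ s)⁻¹) ((τ ^ j) o) = (τ ^ (j - s)) o := by
    rw [← Equiv.Perm.mul_apply, ← zpow_neg, ← zpow_add]
    congr 2
    ring
  have e2 : (τ ^ s) ((τ ^ (j - s)) o) = (τ ^ j) o := by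
    rw [← Equiv.Perm.mul_apply, ← zpow_add]
    congr 2
    ring
  rw [Equiv.Perm.mul_apply, Equiv.Perm.mul_apply, e1, h, e2]

/-- The orbits `K(-n,0) τ o`. -/
def orb (Γ : SimpleGraph V) (o : V) (τ : Equiv.Perm V) (n : ℕ) : Set V :=
  {z | ∃ f ∈ seg Γ o τ (-(n : ℤ)) 0, f (τ o) = z}

lemma orb_anti {m n : ℕ} (h : m ≤ n) :
    orb Γ o τ n ⊆ orb Γ o τ m := by
  rintro z ⟨f, hf, hz⟩
  exact ⟨f, seg_mono (by simpa using h) le_rfl hf, hz⟩

lemma orb_finite (hlf : ∀ v, (Γ.neighborSet v).Finite) (hc : Γ.Preconnected) (n : ℕ) :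
    (orb Γ o τ n).Finite := by
  refine (orbit_finite hlf hc o o (τ o)).subset ?_
  rintro z ⟨f, ⟨hf, hf'⟩, hz⟩
  refine ⟨f, hf, ?_, hz⟩
  simpa using hf' 0 (by simp) le_rfl

lemma orb_stable (hlf : ∀ v, (Γ.neighborSet v).Finite) (hc : Γ.Preconnected)
    (o : V) (τ : Equiv.Perm V) :
    ∃ n₀ : ℕ, ∀ n, n₀ ≤ n → orb Γ o τ n = orb Γ o τ n₀ := by
  classical
  obtain ⟨n₀, hn₀⟩ : ∃ n₀ : ℕ, ∀ n, (orb Γ o τ n₀).ncard ≤ (orb Γ o τ n).ncard :=
    ⟨Function.argmin (fun n => (orb Γ o τ n).ncard),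
      fun n => Function.argmin_le (fun n => (orb Γ o τ n).ncard) n⟩
  refine ⟨n₀, fun n hn => ?_⟩
  exact Set.eq_of_subset_of_ncard_le (orb_anti hn) (hn₀ n) (orb_finite hlf hc n₀)

lemma tidy_step (hτ : τ ∈ grAut Γ) {n₀ : ℕ}
    (hst : ∀ n, n₀ ≤ n → orb Γ o τ n = orb Γ o τ n₀) (m n : ℕ) (hn : n₀ ≤ n)
    {v : Equiv.Perm V} (hv : v ∈ seg Γ o τ 0 n) :
    ∃ a ∈ seg Γ o τ (-(m : ℤ)) n, a⁻¹ * v ∈ seg Γ o τ 0 ((n + 1 : ℕ) : ℤ) := by
  have hw : τ ^ (-(n : ℤ)) * v * (τ ^ (-(n : ℤ)))⁻¹ ∈ seg Γ o τ (-(n : ℤ)) 0 := by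
    have := seg_conj hτ (-(n : ℤ)) hv
    simpa using this
  have hmem : (τ ^ (-(n : ℤ)) * v * (τ ^ (-(n : ℤ)))⁻¹) (τ o) ∈ orb Γ o τ (m + n) := by
    rw [hst (m + n) (by omega), ← hst n hn]
    exact ⟨_, hw, rfl⟩
  obtain ⟨w', hw', hw'eq⟩ := hmem
  have ha : τ ^ (n : ℤ) * w' * (τ ^ (n : ℤ))⁻¹ ∈ seg Γ o τ (-(m : ℤ)) n := by
    have := seg_conj hτ (n : ℤ) hw'
    have e : (-((m + n : ℕ) : ℤ) + n) = -(m : ℤ) := by push_cast; ring
    rw [e, zero_add] at this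
    exact this
  refine ⟨_, ha, ?_⟩
  set a := τ ^ (n : ℤ) * w' * (τ ^ (n : ℤ))⁻¹ with ha_def
  have ha0 : a ∈ seg Γ o τ 0 n := seg_mono (by simp) le_rfl ha
  have hav : a⁻¹ * v ∈ seg Γ o τ 0 n := mul_mem (inv_mem ha0) hv
  refine ⟨hav.1, fun j h1 h2 => ?_⟩
  rcases lt_or_eq_of_le h2 with h3 | h3
  · exact hav.2 j h1 (by push_cast at h3; omega)
  · have key : a ((τ ^ j) o) = v ((τ ^ j) o) := by
      have hj : j = (n : ℤ) + 1 := by rw [h3]; push_cast; ring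
      have e1 : (τ ^ j) o = (τ ^ (n : ℤ)) (τ o) := by
        rw [hj, zpow_add_one, Equiv.Perm.mul_apply]
      rw [e1, ha_def]
      have e2 : ((τ ^ (n : ℤ))⁻¹) ((τ ^ (n : ℤ)) (τ o)) = τ o := by
        rw [perm_inv_apply_self]
      rw [Equiv.Perm.mul_apply, Equiv.Perm.mul_apply, e2, hw'eq, Equiv.Perm.mul_apply,
        Equiv.Perm.mul_apply, zpow_neg, inv_inv, perm_apply_inv_self]
    rw [Equiv.Perm.mul_apply, Equiv.Perm.inv_eq_iff_eq, key]

lemma tidy (hτ : τ ∈ grAut Γ) {n₀ : ℕ}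
    (hst : ∀ n, n₀ ≤ n → orb Γ o τ n = orb Γ o τ n₀) (m m' : ℕ)
    {v : Equiv.Perm V} (hv : v ∈ seg Γ o τ 0 n₀) :
    ∃ a ∈ seg Γ o τ (-(m : ℤ)) n₀, a⁻¹ * v ∈ seg Γ o τ 0 ((n₀ + m' : ℕ) : ℤ) := by
  induction m' with
  | zero => exact ⟨1, one_mem _, by simpa using hv⟩
  | succ k ih =>
    obtain ⟨a, ha, hav⟩ := ih
    obtain ⟨b, hb, hbv⟩ := tidy_step hτ hst m (n₀ + k) (by omega) hav
    refine ⟨a * b, mul_mem ha (seg_mono le_rfl (by push_cast; omega) hb), ?_⟩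
    rw [mul_inv_rev, mul_assoc]
    exact hbv

lemma tidy_mul (hτ : τ ∈ grAut Γ) {n₀ : ℕ}
    (hst : ∀ n, n₀ ≤ n → orb Γ o τ n = orb Γ o τ n₀) (s t : ℕ)
    {v : Equiv.Perm V} (hv : v ∈ seg Γ o τ 0 n₀) :
    ∃ v₁ ∈ seg Γ o τ 0 n₀, ∃ v₂ ∈ seg Γ o τ 0 n₀,
      τ ^ s * v * τ ^ t = v₁ * τ ^ (s + t) * v₂ := by
  obtain ⟨a, ha, hb⟩ := tidy hτ hst s t hv
  refine ⟨τ ^ (s : ℤ) * a * (τ ^ (s : ℤ))⁻¹, ?_,
    τ ^ (-(t : ℤ)) * (a⁻¹ * v) * (τ ^ (-(t : ℤ)))⁻¹, ?_, ?_⟩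
  · refine seg_mono ?_ ?_ (seg_conj hτ (s : ℤ) ha)
    · simp
    · omega
  · refine seg_mono ?_ ?_ (seg_conj hτ (-(t : ℤ)) hb)
    · omega
    · push_cast; omega
  · simp only [zpow_neg, zpow_natCast, pow_add]
    group

lemma tidy_pow (hτ : τ ∈ grAut Γ) {n₀ : ℕ}
    (hst : ∀ n, n₀ ≤ n → orb Γ o τ n = orb Γ o τ n₀) (N : ℕ)
    {v : Equiv.Perm V} (hv : v ∈ seg Γ o τ 0 n₀) (k : ℕ) :
    ∃ v₁ ∈ seg Γ o τ 0 n₀, ∃ v₂ ∈ seg Γ o τ 0 n₀,
      (v * τ ^ N) ^ k = v₁ * τ ^ (N * k) * v₂ := by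
  induction k with
  | zero => exact ⟨1, one_mem _, 1, one_mem _, by simp⟩
  | succ k ih =>
    obtain ⟨v₁, h1, v₂, h2, h⟩ := ih
    obtain ⟨u₁, g1, u₂, g2, g⟩ := tidy_mul hτ hst (N * k) N (mul_mem h2 hv)
    refine ⟨v₁ * u₁, mul_mem h1 g1, u₂, g2, ?_⟩
    rw [pow_succ, h]
    have : v₁ * τ ^ (N * k) * v₂ * (v * τ ^ N) = v₁ * (τ ^ (N * k) * (v₂ * v) * τ ^ N) := by group
    rw [this, g, Nat.mul_succ]
    group

/-- If `B` is a group of automorphisms of a connected locally finite graph with finitely many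
vertex orbits, all of whose elements have a finite orbit, then every automorphism of the graph has
only finite orbits. -/
theorem exists_pow_fix (hlf : ∀ v, (Γ.neighborSet v).Finite) (hc : Γ.Preconnected)
    (B : Subgroup (Equiv.Perm V)) (hB : B ≤ grAut Γ) (R : Set V) (hR : R.Finite)
    (hcof : ∀ v : V, ∃ g ∈ B, g v ∈ R)
    (hper : ∀ g ∈ B, ∃ p : V, ∃ k : ℕ, 0 < k ∧ (g ^ k) p = p)
    {τ : Equiv.Perm V} (hτ : τ ∈ grAut Γ) (o : V) : ∃ k : ℕ, 0 < k ∧ (τ ^ k) o = o := by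
  classical
  obtain ⟨n₀, hst⟩ := orb_stable hlf hc o τ
  choose b hbB hbR using fun m : ℕ => hcof ((τ ^ m)⁻¹ o)
  let κ : ℕ → Equiv.Perm V := fun m => τ ^ m * (b m)⁻¹
  have hκ_mem : ∀ m, κ m ∈ grAut Γ := fun m => mul_mem (pow_mem hτ m) (inv_mem (hB (hbB m)))
  have hκ_inv : ∀ m, (κ m)⁻¹ o = b m ((τ ^ m)⁻¹ o) := by
    intro m
    have : (κ m)⁻¹ = b m * (τ ^ m)⁻¹ := by simp only [κ]; group
    rw [this, Equiv.Perm.mul_apply]
  -- pigeonhole
  let F : ℕ → (Fin (n₀ + 1) → V) := fun m j => (κ m)⁻¹ ((τ ^ (j : ℕ)) o)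
  have hrange : (Set.range F).Finite := by
    refine (Set.Finite.pi' (fun j : Fin (n₀ + 1) =>
      hR.biUnion (fun r _ => orbit_finite hlf hc o r ((τ ^ (j : ℕ)) o)))).subset ?_
    rintro _ ⟨m, rfl⟩ j
    simp only [Set.mem_iUnion]
    refine ⟨(κ m)⁻¹ o, ?_, (κ m)⁻¹, inv_mem (hκ_mem m), rfl, rfl⟩
    rw [hκ_inv]
    exact hbR m
  have hnotinj : ¬ Function.Injective F := fun hinj =>
    Set.infinite_range_of_injective hinj hrange
  obtain ⟨m, m', hlt, hFeq⟩ : ∃ m m' : ℕ, m' < m ∧ F m = F m' := by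
    rw [Function.Injective] at hnotinj
    push Not at hnotinj
    obtain ⟨p, q, hpq, hne⟩ := hnotinj
    rcases lt_or_gt_of_ne hne with h | h
    · exact ⟨q, p, h, hpq.symm⟩
    · exact ⟨p, q, h, hpq⟩
  set v := κ m' * (κ m)⁻¹ with hv_def
  have hv : v ∈ seg Γ o τ 0 n₀ := by
    refine ⟨mul_mem (hκ_mem m') (inv_mem (hκ_mem m)), fun j h1 h2 => ?_⟩
    obtain ⟨i, rfl⟩ := Int.eq_ofNat_of_zero_le h1
    have hi : i < n₀ + 1 := by omega
    have := congrFun hFeq ⟨i, hi⟩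
    simp only [F] at this
    rw [hv_def, Equiv.Perm.mul_apply]
    change κ m' ((κ m)⁻¹ ((τ ^ (i : ℤ)) o)) = (τ ^ (i : ℤ)) o
    rw [zpow_natCast, this, perm_apply_inv_self]
  obtain ⟨N, hN⟩ : ∃ N : ℕ, m = N + m' := ⟨m - m', by omega⟩
  have hNpos : 0 < N := by omega
  -- `v * τ ^ N` is conjugate to an element of `B`
  have hconj : v * τ ^ N = κ m' * (b m * (b m')⁻¹) * (κ m')⁻¹ := by
    have e1 : κ m * b m = τ ^ m := inv_mul_cancel_right _ _
    have e2 : κ m' * b m' = τ ^ m' := inv_mul_cancel_right _ _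
    have e3 : τ ^ N = τ ^ m * (τ ^ m')⁻¹ := by rw [hN, pow_add]; group
    rw [e3, ← e1, ← e2, hv_def]
    group
  obtain ⟨p, r, hr, hp⟩ := hper _ (mul_mem (hbB m) (inv_mem (hbB m')))
  set x := v * τ ^ N with hx_def
  have hx_mem : x ∈ grAut Γ := mul_mem hv.1 (pow_mem hτ N)
  have hxp : (x ^ r) (κ m' p) = κ m' p := by
    rw [hconj, conj_pow, Equiv.Perm.mul_apply, Equiv.Perm.mul_apply, perm_inv_apply_self, hp]
  -- the orbit of `o` under `τ ^ (N * r)` is finite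
  have hfin : (Set.range (fun k : ℕ => (τ ^ (N * (r * k))) o)).Finite := by
    refine ((orbit_finite hlf hc (κ m' p) (κ m' p) o).biUnion
      (fun z _ => orbit_finite hlf hc o o z)).subset ?_
    rintro _ ⟨k, rfl⟩
    simp only [Set.mem_iUnion]
    obtain ⟨v₁, h1, v₂, h2, h⟩ := tidy_pow hτ hst N hv (r * k)
    have hv₂ : v₂⁻¹ o = o := by
      rw [Equiv.Perm.inv_eq_iff_eq]
      simpa using (h2.2 0 le_rfl (by simp)).symm
    have hv₁ : v₁⁻¹ o = o := by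
      rw [Equiv.Perm.inv_eq_iff_eq]
      simpa using (h1.2 0 le_rfl (by simp)).symm
    have hfix : (x ^ (r * k)) (κ m' p) = κ m' p := by
      have : ∀ k : ℕ, ((x ^ r) ^ k) (κ m' p) = κ m' p := by
        intro k
        induction k with
        | zero => simp
        | succ k ih => rw [pow_succ, Equiv.Perm.mul_apply, hxp, ih]
      rw [pow_mul]
      exact this k
    refine ⟨(x ^ (r * k)) o, ⟨x ^ (r * k), pow_mem hx_mem _, hfix, rfl⟩,
      v₁⁻¹, inv_mem h1.1, hv₁, ?_⟩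
    have e : τ ^ (N * (r * k)) = v₁⁻¹ * x ^ (r * k) * v₂⁻¹ := by
      rw [h]
      group
    rw [e, Equiv.Perm.mul_apply, Equiv.Perm.mul_apply, hv₂]
  have hnotinj' : ¬ Function.Injective (fun k : ℕ => (τ ^ (N * (r * k))) o) := fun hinj =>
    Set.infinite_range_of_injective hinj hfin
  obtain ⟨k, k', hlt', hkk⟩ : ∃ k k' : ℕ, k' < k ∧
      (τ ^ (N * (r * k))) o = (τ ^ (N * (r * k'))) o := by
    rw [Function.Injective] at hnotinj'
    push Not at hnotinj'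
    obtain ⟨p, q, hpq, hne⟩ := hnotinj'
    rcases lt_or_gt_of_ne hne with h | h
    · exact ⟨q, p, h, hpq.symm⟩
    · exact ⟨p, q, h, hpq⟩
  obtain ⟨l, rfl⟩ : ∃ l, k = k' + l := ⟨k - k', by omega⟩
  refine ⟨N * (r * l), Nat.mul_pos hNpos (Nat.mul_pos hr (by omega)), ?_⟩
  have e : τ ^ (N * (r * (k' + l))) = τ ^ (N * (r * k')) * τ ^ (N * (r * l)) := by
    rw [← pow_add]
    congr 1
    ring
  rw [e, Equiv.Perm.mul_apply] at hkk
  exact (τ ^ (N * (r * k'))).injective hkk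

end Core

/-- Let `Γ` be a connected locally finite graph and let `G` act on it by automorphisms, with
finitely many vertex orbits and such that every element of `G` has a finite orbit on the vertices
(for example: `G` periodic). Then, for every group `H` acting on `Γ` by automorphisms, every
element of `H` has only finite orbits on the vertices. -/
theorem result.{u, v, w} (V : Type u) (Γ : SimpleGraph V)
    (hlf : ∀ x, (Γ.neighborSet x).Finite) (hc : Γ.Connected)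
    (G : Type v) [Group G] [MulAction G V]
    (hG : ∀ (g : G) (x y : V), Γ.Adj x y → Γ.Adj (g • x) (g • y))
    (hcof : ∃ R : Set V, R.Finite ∧ ∀ x : V, ∃ g : G, g • x ∈ R)
    (hper : ∀ g : G, ∃ x : V, ∃ k : ℕ, 0 < k ∧ g ^ k • x = x)
    (H : Type w) [Group H] [MulAction H V]
    (hH : ∀ (h : H) (x y : V), Γ.Adj x y → Γ.Adj (h • x) (h • y)) :
    ∀ (h : H) (x : V), ∃ k : ℕ, 0 < k ∧ h ^ k • x = x := by
  obtain ⟨R, hR, hcof⟩ := hcof
  let B : Subgroup (Equiv.Perm V) := (MulAction.toPermHom G V).range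
  have hB : B ≤ grAut Γ := by
    rintro _ ⟨g, rfl⟩ x y
    refine ⟨hG g x y, fun hh => ?_⟩
    have := hG g⁻¹ _ _ hh
    simpa using this
  intro h o
  have hτ : MulAction.toPermHom H V h ∈ grAut Γ := by
    intro x y
    refine ⟨hH h x y, fun hh => ?_⟩
    have := hH h⁻¹ _ _ hh
    simpa using this
  obtain ⟨k, hk, hx⟩ := exists_pow_fix hlf hc.preconnected B hB R hR
    (fun x => by
      obtain ⟨g, hg⟩ := hcof x
      exact ⟨MulAction.toPermHom G V g, ⟨g, rfl⟩, hg⟩)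
    (by
      rintro _ ⟨g, rfl⟩
      obtain ⟨x, k, hk, hx⟩ := hper g
      refine ⟨x, k, hk, ?_⟩
      rw [← map_pow]
      exact hx) hτ o
  refine ⟨k, hk, ?_⟩
  rw [← map_pow] at hx
  exact hx

/-- Consequence (the negated form of Q1): if `G` and `H` act simply transitively on the same
connected locally finite graph and `G` is periodic, then `H` is periodic. -/
theorem periodic_of_periodic.{u, v, w} (V : Type u) (Γ : SimpleGraph V)
    (hlf : ∀ x, (Γ.neighborSet x).Finite) (hc : Γ.Connected)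
    (G : Type v) [Group G] [MulAction G V]
    (hG : ∀ (g : G) (x y : V), Γ.Adj x y → Γ.Adj (g • x) (g • y))
    (hGt : ∀ x y : V, ∃ g : G, g • x = y) (hGp : ∀ g : G, IsOfFinOrder g)
    (H : Type w) [Group H] [MulAction H V]
    (hH : ∀ (h : H) (x y : V), Γ.Adj x y → Γ.Adj (h • x) (h • y))
    (hHs : ∀ (h : H) (x : V), h • x = x → h = 1) : ∀ h : H, IsOfFinOrder h := by
  intro h
  obtain ⟨o⟩ := hc.nonempty
  obtain ⟨k, hk, hx⟩ := result V Γ hlf hc G hG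
    ⟨{o}, Set.finite_singleton o, fun x => by
      obtain ⟨g, hg⟩ := hGt x o
      exact ⟨g, by simpa using hg⟩⟩
    (fun g => by
      obtain ⟨k, hk, h1⟩ := (isOfFinOrder_iff_pow_eq_one).1 (hGp g)
      exact ⟨o, k, hk, by rw [h1, one_smul]⟩) H hH h o
  exact isOfFinOrder_iff_pow_eq_one.2 ⟨k, hk, hHs _ _ hx⟩

end Pool.Agent.Results.MP_4d7bfe_al.FiniteOrbits
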